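import Pool.Agent.Mg.F9808b6.G85be52
import Mathlib

section

/- Fourier coefficients, influences and the level inequality on the cube of subsets. -/

set_option autoImplicit false
set_option linter.unusedSectionVars false

open Finset Pool.Agent.MP_9808b6_an

namespace Pool.Agent.MP_163ab5_co.K

variable {ι : Type} [Fintype ι] [DecidableEq ι]

/-- Fourier coefficient. -/
noncomputable def fh (F : Finset ι → ℝ) (S : Finset ι) : ℝ := av fun x => F x * chi S x

/-- Difference along an edge. -/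
def df (F : Finset ι → ℝ) (i : ι) (x : Finset ι) : ℝ := F x - F (symmDiff x {i})

/-- Influence. -/
noncomputable def inf (F : Finset ι → ℝ) (i : ι) : ℝ := av fun x => df F i x ^ 2

theorem av_sub (F G : Finset ι → ℝ) : av (fun x => F x - G x) = av F - av G := by
  simp only [av]
  rw [Finset.sum_sub_distrib, sub_div]

theorem av_flip (i : ι) (F : Finset ι → ℝ) : av (fun x => F (symmDiff x {i})) = av F := by
  simp only [av, MP_9808b6_an.sum_flip]

theorem flip_flip (i : ι) (x : Finset ι) : symmDiff (symmDiff x {i}) {i} = x :=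
  symmDiff_symmDiff_cancel_right _ _

theorem chi_orth (x y : Finset ι) :
    ∑ S, chi S x * chi S y = if x = y then (Fintype.card (Finset ι) : ℝ) else 0 := by
  simp only [chi, ← Finset.prod_mul_distrib]
  rw [← Finset.powerset_univ, ← Finset.prod_one_add]
  split_ifs with h
  · subst h
    simp only [← sq, sg_sq]
    simp [Fintype.card_finset]
    norm_num
  · obtain ⟨i, hi⟩ : ∃ i, ¬ (i ∈ x ↔ i ∈ y) := by
      by_contra hc
      exact h (Finset.ext fun i => not_not.1 fun a => hc ⟨i, a⟩)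
    refine Finset.prod_eq_zero (mem_univ i) ?_
    by_cases a : i ∈ x <;> by_cases b : i ∈ y <;> simp_all [sg]

theorem ev_fh (F : Finset ι → ℝ) (x : Finset ι) : evB univ (fh F) x = F x := by
  have hN := (cardN_pos (ι := ι)).ne'
  simp only [evB, fh, av, Finset.powerset_univ, div_mul_eq_mul_div, Finset.sum_mul]
  rw [← Finset.sum_div, Finset.sum_comm, div_eq_iff hN]
  simp only [mul_assoc, ← Finset.mul_sum, chi_orth]
  simp

theorem pars (F : Finset ι → ℝ) : av (fun x => F x ^ 2) = ∑ S, fh F S ^ 2 := by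
  have := parseval univ (fh F)
  simpa only [ev_fh, Finset.powerset_univ] using this

theorem chi_flip (S x : Finset ι) (i : ι) :
    chi S (symmDiff x {i}) = (if i ∈ S then -1 else 1) * chi S x := by
  unfold chi
  split_ifs with h
  · rw [← Finset.mul_prod_erase _ _ h, ← Finset.mul_prod_erase _ (fun j => sg x j) h, sg_flip_self,
      Finset.prod_congr rfl fun j hj => sg_flip_ne x (Finset.ne_of_mem_erase hj)]
    ring
  · rw [one_mul]
    exact Finset.prod_congr rfl fun j hj => sg_flip_ne x (ne_of_mem_of_not_mem hj h)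

theorem fh_sub (F G : Finset ι → ℝ) (S : Finset ι) :
    fh (fun x => F x - G x) S = fh F S - fh G S := by
  simp only [fh, sub_mul, av_sub]

theorem fh_flip (F : Finset ι → ℝ) (i : ι) (S : Finset ι) :
    fh (fun x => F (symmDiff x {i})) S = (if i ∈ S then -1 else 1) * fh F S := by
  rw [fh, ← av_flip i, fh, ← av_mul]
  simp only [flip_flip, chi_flip]
  congr 1
  ext x
  ring

theorem fh_df (F : Finset ι → ℝ) (i : ι) (S : Finset ι) :
    fh (df F i) S ^ 2 = if i ∈ S then 4 * fh F S ^ 2 else 0 := by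
  have := fh_sub F (fun x => F (symmDiff x {i})) S
  rw [fh_flip] at this
  rw [show df F i = fun x => F x - F (symmDiff x {i}) from rfl, this]
  split_ifs <;> ring

theorem inf_eq (F : Finset ι → ℝ) (i : ι) :
    inf F i = ∑ S, if i ∈ S then 4 * fh F S ^ 2 else 0 := by
  simp only [inf, pars, fh_df]

theorem fh_inv {G : Finset ι → ℝ} {i : ι} (h : ∀ x, G (symmDiff x {i}) = G x) {S : Finset ι}
    (hi : i ∈ S) : fh G S = 0 := by
  have := fh_flip G i S
  simp only [h, if_pos hi] at this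
  linarith

theorem lev {h : Finset ι → ℝ} (hh : ∀ x, h x ^ 2 = 0 ∨ h x ^ 2 = 1) (d : ℕ) {t : ℝ} (ht : 0 ≤ t)
    (hp : av (fun x => h x ^ 2) ≤ t ^ 2) :
    ∑ S, (if S.card ≤ d then fh h S ^ 2 else 0) ≤ 3 ^ d * t * av fun x => h x ^ 2 := by
  have h1 := hyper (r := 2 / 3) (by norm_num) (by norm_num) univ (fh h)
  have e : (fun x => (evB univ (fh h) x ^ 2) ^ (2 / 3 : ℝ)) = fun x => h x ^ 2 := by
    ext x
    rw [ev_fh]
    rcases hh x with a | a <;> rw [a] <;> simp
  rw [e, Finset.powerset_univ] at h1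
  set p := av fun x => h x ^ 2
  have p0 : 0 ≤ p := av_nonneg fun x => sq_nonneg _
  have h2 : p ^ (1 / (2 / 3) : ℝ) ≤ t * p := by
    rw [show (1 / (2 / 3) : ℝ) = 1 / 2 + 1 by norm_num, Real.rpow_add' p0 (by norm_num),
      Real.rpow_one, ← Real.sqrt_eq_rpow]
    exact mul_le_mul_of_nonneg_right (Real.sqrt_le_iff.2 ⟨ht, hp⟩) p0
  rw [mul_assoc]
  refine le_trans ?_ (mul_le_mul_of_nonneg_left (h1.trans h2) (by positivity))
  rw [Finset.mul_sum]
  refine Finset.sum_le_sum fun S _ => ?_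
  split_ifs with hS
  · rw [← mul_assoc]
    refine le_mul_of_one_le_left (sq_nonneg _) ?_
    obtain ⟨e, rfl⟩ := Nat.exists_eq_add_of_le hS
    rw [pow_add, mul_right_comm, ← mul_pow]
    norm_num
    exact one_le_pow₀ (by norm_num)
  · norm_num
    positivity

theorem sum_inf (F : Finset ι → ℝ) (J : Finset ι) :
    ∑ i ∈ J, inf F i = ∑ S, 4 * ((S ∩ J).card : ℝ) * fh F S ^ 2 := by
  simp only [inf_eq]
  rw [Finset.sum_comm]
  refine Finset.sum_congr rfl fun S _ => ?_
  rw [Finset.sum_ite_mem, inter_comm, sum_const, nsmul_eq_mul]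
  ring

theorem low {F : Finset ι → ℝ} (hF : ∀ x, F x = 0 ∨ F x = 1) (J : Finset ι) (d : ℕ) {t : ℝ}
    (ht : 0 ≤ t) (hJ : ∀ i ∈ J, inf F i ≤ t ^ 2) :
    ∑ S, (if S.card ≤ d then 4 * ((S ∩ J).card : ℝ) * fh F S ^ 2 else 0) ≤
      3 ^ d * t * ∑ i ∈ J, inf F i := by
  rw [Finset.mul_sum]
  refine le_trans (le_of_eq ?_) (Finset.sum_le_sum fun i hi => lev (h := df F i) (fun x => by
    unfold df
    rcases hF x with a | a <;> rcases hF (symmDiff x {i}) with b | b <;> simp [a, b]) d ht (hJ i hi))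
  rw [Finset.sum_comm]
  refine Finset.sum_congr rfl fun S _ => ?_
  split_ifs
  · simp only [fh_df]
    rw [Finset.sum_ite_mem, inter_comm, sum_const, nsmul_eq_mul]
    ring
  · simp

end Pool.Agent.MP_163ab5_co.K

end

section

/- The lower bound for the largest bias. -/

set_option autoImplicit false
set_option linter.unusedSectionVars false

open Finset Pool.Agent.MP_9808b6_an

namespace Pool.Agent.MP_163ab5_co.K

variable {ι : Type} [Fintype ι] [DecidableEq ι]

/-- What is used about the indicator of a dense union-closed family with biases at most `β`. -/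
structure Hyp (F : Finset ι → ℝ) (β : ℝ) : Prop where
  zo : ∀ x, F x = 0 ∨ F x = 1
  neg : ∀ i, 0 ≤ inf F i + 2 * fh F {i}
  tot : ∑ i, (inf F i + 2 * fh F {i}) ≤ 4 * (1 - av F)
  le : ∀ i, -2 * fh F {i} ≤ β
  b0 : 0 ≤ β
  half : 1 / 2 ≤ av F

variable {F : Finset ι → ℝ} {β : ℝ}

theorem Hyp.sq (H : Hyp F β) : ∑ S, fh F S ^ 2 = av F := by
  rw [← pars]
  congr 1
  ext x
  rcases H.zo x with a | a <;> simp [a]

theorem fh_empty (F : Finset ι → ℝ) : fh F ∅ = av F := by simp [fh, chi]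

theorem inf_nonneg (F : Finset ι → ℝ) (i : ι) : 0 ≤ inf F i := av_nonneg fun _ => sq_nonneg _

theorem Hyp.le_one (H : Hyp F β) : av F ≤ 1 := av_le fun x => by
  rcases H.zo x with a | a <;> simp [a]

theorem Hyp.pt (H : Hyp F β) (i : ι) :
    inf F i + 4 * fh F {i} ^ 2 ≤ inf F i + 2 * fh F {i} + 2 * β := by
  have h1 : inf F i ≤ 1 := av_le fun x => by
    unfold df
    rcases H.zo x with a | a <;> rcases H.zo (symmDiff x {i}) with b | b <;> simp [a, b]
  have h2 : 4 * fh F {i} ^ 2 ≤ inf F i := by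
    rw [inf_eq]
    refine le_trans (by simp) (Finset.single_le_sum (f := fun S => if i ∈ S then 4 * fh F S ^ 2
      else 0) (fun S _ => by split_ifs <;> positivity) (mem_univ {i}))
  have h3 := H.le i
  have h4 := H.b0
  have h5 : -1 ≤ 2 * fh F {i} ∧ 2 * fh F {i} ≤ 1 := abs_le_of_sq_le_sq' (by nlinarith) zero_le_one
  rcases le_total 0 (fh F {i}) with a | a <;> nlinarith

theorem Hyp.sumJ (H : Hyp F β) (J : Finset ι) {θ : ℝ} (h0 : 0 ≤ θ) (h1 : θ ≤ 1) :
    ∑ S, (4 * ((S ∩ J).card : ℝ) + ∑ i ∈ J, if S = {i} then 4 else 0) * fh F S ^ 2 +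
      θ * ∑ i ∈ Jᶜ, inf F i ≤ 4 * (1 - av F) + (2 * J.card + θ * Fintype.card ι) * β := by
  have e : ∑ S, (4 * ((S ∩ J).card : ℝ) + ∑ i ∈ J, if S = {i} then 4 else 0) * fh F S ^ 2 =
      ∑ i ∈ J, (inf F i + 4 * fh F {i} ^ 2) := by
    simp only [add_mul, Finset.sum_add_distrib, sum_inf, Finset.sum_mul]
    rw [Finset.sum_comm (s := univ) (t := J)]
    simp
  have a1 := Finset.sum_le_sum fun i (_ : i ∈ J) => H.pt i
  have a2 : ∑ i ∈ Jᶜ, inf F i ≤ ∑ i ∈ Jᶜ, (inf F i + 2 * fh F {i} + β) :=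
    Finset.sum_le_sum fun i _ => by linarith [H.le i]
  have a3 := H.tot
  have a4 : 0 ≤ ∑ i ∈ Jᶜ, (inf F i + 2 * fh F {i}) := Finset.sum_nonneg fun i _ => H.neg i
  have a5 : ((Jᶜ).card : ℝ) * β ≤ Fintype.card ι * β :=
    mul_le_mul_of_nonneg_right (by exact_mod_cast card_le_univ _) H.b0
  rw [← Finset.sum_add_sum_compl J] at a3
  rw [Finset.sum_add_distrib (g := fun _ => 2 * β), sum_const, nsmul_eq_mul] at a1
  rw [Finset.sum_add_distrib (g := fun _ => β), sum_const, nsmul_eq_mul] at a2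
  rw [e]
  nlinarith [mul_le_mul_of_nonneg_left a2 h0, mul_le_mul_of_nonneg_left a5 h0,
    mul_nonneg (sub_nonneg.2 h1) a4]

theorem Hyp.var (H : Hyp F β) :
    ∑ S, (if S = ∅ then 0 else 8 * fh F S ^ 2) = 8 * (av F - av F ^ 2) := by
  have : ∑ S, (if S = ∅ then 0 else 8 * fh F S ^ 2) =
      ∑ S, (8 * fh F S ^ 2 - if S = ∅ then 8 * fh F S ^ 2 else 0) :=
    Finset.sum_congr rfl fun S _ => by split_ifs <;> ring
  rw [this, Finset.sum_sub_distrib, ← Finset.mul_sum, H.sq]
  simp [fh_empty]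
  ring

theorem wt (S J : Finset ι) (hS : S ≠ ∅) (hJ : S ⊆ J) :
    8 + (if 3 ≤ S.card then 4 * ((S.card : ℝ) - 2) else 0) ≤
      4 * ((S ∩ J).card : ℝ) + ∑ i ∈ J, if S = {i} then 4 else 0 := by
  rw [inter_eq_left.2 hJ]
  have q : (0 : ℝ) ≤ ∑ i ∈ J, if S = {i} then 4 else 0 :=
    Finset.sum_nonneg fun i _ => by split_ifs <;> norm_num
  have := Finset.card_pos.2 (nonempty_iff_ne_empty.2 hS)
  rcases (by omega : S.card = 1 ∨ S.card = 2 ∨ 3 ≤ S.card) with h | h | h
  · obtain ⟨j, rfl⟩ := Finset.card_eq_one.1 h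
    simp [singleton_subset_iff.1 hJ]
    norm_num
  · rw [h, if_neg (by omega)]
    push_cast
    linarith
  · rw [if_pos h]
    linarith

/-- Weight off the subsets of `J`. -/
noncomputable def wo (F : Finset ι → ℝ) (J : Finset ι) : ℝ :=
  ∑ S, if S ⊆ J then 0 else fh F S ^ 2

/-- Weight above level `d`. -/
noncomputable def wh (F : Finset ι → ℝ) (d : ℕ) : ℝ := ∑ S, if S.card ≤ d then 0 else fh F S ^ 2

theorem Hyp.A (H : Hyp F β) (J : Finset ι) {θ : ℝ} (h0 : 0 ≤ θ) (h1 : θ ≤ 1) :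
    4 * ((1 - av F) * (2 * av F - 1)) + θ * ∑ i ∈ Jᶜ, inf F i ≤
      8 * wo F J + (2 * J.card + θ * Fintype.card ι) * β := by
  have a := H.sumJ J h0 h1
  have b : ∑ S, (if S = ∅ then 0 else 8 * fh F S ^ 2) ≤ 8 * wo F J +
      ∑ S, (4 * ((S ∩ J).card : ℝ) + ∑ i ∈ J, if S = {i} then 4 else 0) * fh F S ^ 2 := by
    rw [wo, Finset.mul_sum, ← Finset.sum_add_distrib]
    refine Finset.sum_le_sum fun S _ => ?_
    have q := sq_nonneg (fh F S)
    have q' : (0 : ℝ) ≤ 4 * ((S ∩ J).card : ℝ) + ∑ i ∈ J, if S = {i} then 4 else 0 :=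
      add_nonneg (by positivity) (Finset.sum_nonneg fun i _ => by split_ifs <;> norm_num)
    have q2 := mul_nonneg q' q
    by_cases hS : S = ∅
    · rw [if_pos hS]
      split_ifs <;> linarith
    · rw [if_neg hS]
      by_cases hJ : S ⊆ J
      · have := wt S J hS hJ
        have q3 : (0 : ℝ) ≤ if 3 ≤ S.card then 4 * ((S.card : ℝ) - 2) else 0 := by
          split_ifs with h
          · have : (3 : ℝ) ≤ S.card := by exact_mod_cast h
            linarith
          · rfl
        rw [if_pos hJ]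
        nlinarith
      · rw [if_neg hJ]
        linarith
  rw [H.var] at b
  nlinarith

theorem Hyp.B (H : Hyp F β) : 4 * ((1 - av F) * (2 * av F - 1)) +
    ∑ S, (if 3 ≤ S.card then 4 * ((S.card : ℝ) - 2) else 0) * fh F S ^ 2 ≤
      2 * (Fintype.card ι * β) := by
  have a := H.sumJ univ le_rfl zero_le_one
  have b : ∑ S, (if S = ∅ then 0 else 8 * fh F S ^ 2) +
      ∑ S, (if 3 ≤ S.card then 4 * ((S.card : ℝ) - 2) else 0) * fh F S ^ 2 ≤
      ∑ S, (4 * ((S ∩ univ).card : ℝ) + ∑ i, if S = {i} then 4 else 0) * fh F S ^ 2 := by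
    rw [← Finset.sum_add_distrib]
    refine Finset.sum_le_sum fun S _ => ?_
    have q := sq_nonneg (fh F S)
    by_cases hS : S = ∅
    · subst hS
      simp [eq_comm]
    · rw [if_neg hS]
      nlinarith [wt S univ hS (subset_univ _)]
  rw [H.var] at b
  rw [card_univ] at a
  nlinarith

theorem Hyp.del (H : Hyp F β) : 0 ≤ (1 - av F) * (2 * av F - 1) :=
  mul_nonneg (by linarith [H.le_one]) (by linarith [H.half])

theorem hi_nonneg (F : Finset ι → ℝ) (S : Finset ι) :
    0 ≤ (if 3 ≤ S.card then 4 * ((S.card : ℝ) - 2) else 0) * fh F S ^ 2 := by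
  refine mul_nonneg ?_ (sq_nonneg _)
  split_ifs with h
  · have : (3 : ℝ) ≤ S.card := by exact_mod_cast h
    linarith
  · rfl

theorem Hyp.B0 (H : Hyp F β) : 2 * ((1 - av F) * (2 * av F - 1)) ≤ Fintype.card ι * β := by
  linarith [H.B, Finset.sum_nonneg fun S (_ : S ∈ univ) => hi_nonneg F S]

theorem Hyp.B1 (H : Hyp F β) {d : ℕ} (hd : 2 ≤ d) : d * wh F d ≤ Fintype.card ι * β := by
  have : 2 * (d * wh F d) ≤
      ∑ S, (if 3 ≤ S.card then 4 * ((S.card : ℝ) - 2) else 0) * fh F S ^ 2 := by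
    rw [wh, Finset.mul_sum, Finset.mul_sum]
    refine Finset.sum_le_sum fun S _ => ?_
    by_cases h : S.card ≤ d
    · simpa only [if_pos h, mul_zero] using hi_nonneg F S
    · have h1 : (d : ℝ) + 1 ≤ S.card := by exact_mod_cast not_le.1 h
      have h2 : (2 : ℝ) ≤ d := by exact_mod_cast hd
      rw [if_neg h, if_pos (by omega)]
      nlinarith [sq_nonneg (fh F S)]
  linarith [H.B, H.del]

theorem Hyp.cardJ (H : Hyp F β) (τ : ℝ) :
    ((univ.filter fun i => τ < inf F i).card : ℝ) * τ ≤ 2 + Fintype.card ι * β := by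
  have a1 : ((univ.filter fun i => τ < inf F i).card : ℝ) * τ ≤
      ∑ i ∈ univ.filter fun i => τ < inf F i, inf F i := by
    rw [← nsmul_eq_mul]
    exact Finset.card_nsmul_le_sum _ _ _ fun i hi => (mem_filter.1 hi).2.le
  have a2 : ∑ i ∈ univ.filter fun i => τ < inf F i, inf F i ≤ ∑ i, inf F i :=
    Finset.sum_le_sum_of_subset_of_nonneg (subset_univ _) fun i _ _ => inf_nonneg F i
  have a3 : ∑ i, inf F i ≤ ∑ i, (inf F i + 2 * fh F {i} + β) :=
    Finset.sum_le_sum fun i _ => by linarith [H.le i]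
  rw [Finset.sum_add_distrib (g := fun _ => β), sum_const, nsmul_eq_mul, card_univ] at a3
  linarith [H.tot, H.half]

theorem one_le_out {S J : Finset ι} (h : ¬ S ⊆ J) : (1 : ℝ) ≤ (S ∩ Jᶜ).card := by
  obtain ⟨i, a, b⟩ := not_subset.1 h
  exact_mod_cast Finset.card_pos.2 ⟨i, mem_inter.2 ⟨a, mem_compl.2 b⟩⟩

theorem Hyp.L1 (H : Hyp F β) {d : ℕ} (hd : 729 ^ d ≤ Fintype.card ι) :
    (1 - av F) * (2 * av F - 1) * (d + 1) ≤ 6 * (Fintype.card ι * β) := by
  have b0 := H.B0
  have d0 := H.del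
  have d1 : (1 - av F) * (2 * av F - 1) ≤ 1 := by nlinarith [H.le_one, H.half]
  set δ := (1 - av F) * (2 * av F - 1)
  set s := (Fintype.card ι : ℝ) * β with hs
  by_cases h2 : d < 2
  · have : (d : ℝ) ≤ 1 := by exact_mod_cast Nat.lt_succ_iff.1 h2
    nlinarith
  have h2' : (2 : ℝ) ≤ d := by exact_mod_cast not_lt.1 h2
  by_cases h3 : (d : ℝ) ≤ s
  · nlinarith
  set J := univ.filter fun i => ((1 / 9 : ℝ) ^ d) ^ 2 < inf F i with hJ
  have c1 := H.cardJ (((1 / 9 : ℝ) ^ d) ^ 2)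
  have c2 := low H.zo Jᶜ d (t := (1 / 9 : ℝ) ^ d) (by positivity) fun i hi => by
    simpa [hJ] using hi
  have c3 : (3 : ℝ) ^ d * (1 / 9) ^ d = (1 / 3) ^ d := by rw [← mul_pow]; norm_num
  have c4 : (d : ℝ) + 2 ≤ 3 ^ d := by
    have := one_add_mul_le_pow (a := (2 : ℝ)) (by norm_num) d
    norm_num at this
    linarith
  have c5 : (3 : ℝ) ^ d * (1 / 3) ^ d = 1 := by rw [← mul_pow]; norm_num
  have p3 : (0 : ℝ) < (1 / 3) ^ d := by positivity
  have c6 := H.A J (θ := 2 * (1 / 3) ^ d) (by positivity) (by nlinarith)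
  have c7 : 4 * wo F J ≤ 4 * wh F d +
      ∑ S, (if S.card ≤ d then 4 * ((S ∩ Jᶜ).card : ℝ) * fh F S ^ 2 else 0) := by
    rw [wo, wh, Finset.mul_sum, Finset.mul_sum, ← Finset.sum_add_distrib]
    refine Finset.sum_le_sum fun S _ => ?_
    have q := sq_nonneg (fh F S)
    split_ifs with a b b
    · nlinarith [mul_nonneg (Nat.cast_nonneg (α := ℝ) (S ∩ Jᶜ).card) q]
    · linarith
    · nlinarith [one_le_out a]
    · linarith
  have c8 := H.B1 (not_lt.1 h2)
  have c9 : (J.card : ℝ) * d ≤ Fintype.card ι := by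
    have e1 : ((729 ^ d : ℕ) : ℝ) ≤ Fintype.card ι := by exact_mod_cast hd
    have e2 : ((729 ^ d : ℕ) : ℝ) * ((1 / 9 : ℝ) ^ d) ^ 2 = 3 ^ d * 3 ^ d := by
      push_cast
      rw [← pow_mul, mul_comm d, pow_mul, ← mul_pow, ← mul_pow]
      norm_num
    have p9 : (0 : ℝ) < ((1 / 9 : ℝ) ^ d) ^ 2 := by positivity
    refine le_of_mul_le_mul_right ?_ p9
    calc (J.card : ℝ) * d * ((1 / 9 : ℝ) ^ d) ^ 2 = J.card * ((1 / 9 : ℝ) ^ d) ^ 2 * d := by ring
      _ ≤ 3 ^ d * 3 ^ d := mul_le_mul (by linarith) (by linarith) (by linarith) (by positivity)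
      _ ≤ _ := e2 ▸ mul_le_mul_of_nonneg_right e1 p9.le
  rw [c3] at c2
  have f1 : 4 * δ ≤ 8 * wh F d + 2 * (J.card * β) + 2 * (1 / 3) ^ d * s := by nlinarith
  have f2 : (J.card : ℝ) * d * β ≤ s := mul_le_mul_of_nonneg_right c9 H.b0
  have f3 : (d : ℝ) * (1 / 3) ^ d ≤ 1 := by nlinarith
  have s0 : 0 ≤ s := by linarith
  have f4 := mul_le_mul_of_nonneg_left f1 (by linarith : (0 : ℝ) ≤ d)
  nlinarith [mul_le_mul_of_nonneg_right f3 s0]

theorem Hyp.round (H : Hyp F β) (J : Finset ι) : ∃ h : Finset ι → ℝ,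
    (∀ x, h x ^ 2 = 0 ∨ h x ^ 2 = 1) ∧ av (fun x => h x ^ 2) ≤ 4 * wo F J ∧
      ∀ S, ¬ S ⊆ J → fh h S = fh F S := by
  let p := evB J (fh F)
  let g : Finset ι → ℝ := fun x => if 1 / 2 ≤ p x then 1 else 0
  refine ⟨fun x => F x - g x, fun x => ?_, ?_, fun S hS => ?_⟩
  · simp only [g]
    rcases H.zo x with a | a <;> split_ifs <;> simp [a]
  · have e : ∀ x, F x - p x = evB univ (fun S => if S ⊆ J then 0 else fh F S) x := fun x => by
      rw [← ev_fh F x]
      simp only [p, evB, Finset.powerset_univ]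
      rw [show J.powerset = univ.filter (· ⊆ J) by ext; simp, Finset.sum_filter,
        ← Finset.sum_sub_distrib]
      exact Finset.sum_congr rfl fun S _ => by split_ifs <;> ring
    have e2 : wo F J = av fun x => (F x - p x) ^ 2 := by
      simp only [e]
      rw [parseval, Finset.powerset_univ, wo]
      exact Finset.sum_congr rfl fun S _ => by split_ifs <;> ring
    rw [e2, ← av_mul]
    refine av_mono fun x => ?_
    simp only [g]
    rcases H.zo x with a | a <;> split_ifs with b <;> rw [a] <;> nlinarith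
  · obtain ⟨i, a, b⟩ := not_subset.1 hS
    rw [fh_sub, fh_inv (G := g) (fun x => by simp only [g, p, evB_flip b]) a, sub_zero]

theorem Hyp.L2 (H : Hyp F β) {e : ℕ} (he : 16 * 81 ^ e * ((1 - av F) * (2 * av F - 1)) ≤ 1)
    (hn : e + 1 ≤ 2 * Fintype.card ι) :
    (1 - av F) * (2 * av F - 1) * (e + 1) ≤ 2000 * (Fintype.card ι * β) := by
  have b0 := H.B0
  have d0 := H.del
  have hB := H.B
  set δ := (1 - av F) * (2 * av F - 1)
  set s := (Fintype.card ι : ℝ) * β with hs
  have s0 : 0 ≤ s := by linarith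
  have c4 : (e : ℝ) + 1 ≤ 9 ^ e := by
    have := one_add_mul_le_pow (a := (8 : ℝ)) (by norm_num) e
    have h0 : (0 : ℝ) ≤ e := Nat.cast_nonneg e
    norm_num at this
    linarith
  have e9 : (81 : ℝ) ^ e = 9 ^ e * 9 ^ e := by rw [← mul_pow]; norm_num
  have e3 : (9 : ℝ) ^ e = 3 ^ e * 3 ^ e := by rw [← mul_pow]; norm_num
  have p9 : (1 : ℝ) ≤ 9 ^ e := one_le_pow₀ (by norm_num)
  have e0 : (0 : ℝ) ≤ e := Nat.cast_nonneg e
  have g1 : δ * (e + 1) ≤ δ * 9 ^ e := mul_le_mul_of_nonneg_left c4 d0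
  by_cases h1 : 1 ≤ s
  · nlinarith [mul_nonneg d0 (mul_nonneg (by linarith : (0 : ℝ) ≤ 9 ^ e) (sub_nonneg.2 p9))]
  by_cases h2 : e < 972
  · have : (e : ℝ) ≤ 972 := by exact_mod_cast h2.le
    nlinarith
  set J := univ.filter fun i => (1 / 18 : ℝ) ^ 2 < inf F i with hJ
  have c1 := H.cardJ ((1 / 18 : ℝ) ^ 2)
  have c1' : (J.card : ℝ) ≤ 972 := by
    rw [← hJ, ← hs] at c1
    linarith
  have c2 := low H.zo Jᶜ 2 (t := (1 / 18 : ℝ)) (by positivity) fun i hi => by
    simpa [hJ] using hi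
  have c3 : ∑ i ∈ Jᶜ, inf F i ≤
      ∑ S, (if S.card ≤ 2 then 4 * ((S ∩ Jᶜ).card : ℝ) * fh F S ^ 2 else 0) +
      3 * ∑ S, (if 3 ≤ S.card then 4 * ((S.card : ℝ) - 2) else 0) * fh F S ^ 2 := by
    rw [sum_inf, Finset.mul_sum, ← Finset.sum_add_distrib]
    refine Finset.sum_le_sum fun S _ => ?_
    by_cases h : S.card ≤ 2
    · rw [if_pos h]
      linarith [hi_nonneg F S]
    · have a1 : (3 : ℝ) ≤ S.card := by exact_mod_cast not_le.1 h
      have a2 : ((S ∩ Jᶜ).card : ℝ) ≤ S.card := by exact_mod_cast card_le_card inter_subset_left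
      rw [if_neg h, if_pos (by omega)]
      nlinarith [sq_nonneg (fh F S)]
  have c5 : 4 * wo F J ≤ ∑ i ∈ Jᶜ, inf F i := by
    rw [sum_inf, wo, Finset.mul_sum]
    refine Finset.sum_le_sum fun S _ => ?_
    have q := sq_nonneg (fh F S)
    split_ifs with a
    · nlinarith [mul_nonneg (Nat.cast_nonneg (α := ℝ) (S ∩ Jᶜ).card) q]
    · nlinarith [one_le_out a]
  obtain ⟨h, h01, hρ, hc⟩ := H.round J
  have hp := pars h
  set ρ := av fun x => h x ^ 2
  have ρ0 : 0 ≤ ρ := av_nonneg fun x => sq_nonneg _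
  have c6 : ρ ≤ 12 * s := by linarith
  have c7 : wo F J ≤ ρ := by
    rw [hp, wo]
    refine Finset.sum_le_sum fun S _ => ?_
    split_ifs with a
    · positivity
    · rw [hc S a]
  have c8 := H.A J le_rfl zero_le_one
  by_cases h3 : ρ < δ / 4
  · have a1 : δ ≤ 972 * β := by nlinarith [mul_le_mul_of_nonneg_right c1' H.b0]
    have a2 : (e : ℝ) + 1 ≤ 2 * Fintype.card ι := by exact_mod_cast hn
    nlinarith [mul_le_mul a1 a2 (by linarith) (by linarith)]
  by_cases h4 : δ ≤ ρ ^ 2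
  · have : δ * 9 ^ e ≤ ρ := by
      refine abs_le_of_sq_le_sq' ?_ ρ0 |>.2
      have := mul_le_mul_of_nonneg_left he d0
      rw [e9] at this
      nlinarith
    linarith
  have a1 : 4 * 9 ^ e * ρ ≤ 1 := by
    refine abs_le_of_sq_le_sq' ?_ zero_le_one |>.2
    nlinarith [mul_le_mul_of_nonneg_left (not_le.1 h4).le (by positivity : (0 : ℝ) ≤ 16 * 81 ^ e)]
  have p3 : (0 : ℝ) < 3 ^ e := by positivity
  have a2 := lev h01 e (t := 1 / (2 * 3 ^ e)) (by positivity) (by
    rw [div_pow, le_div_iff₀ (by positivity)]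
    nlinarith)
  have a3 : (3 : ℝ) ^ e * (1 / (2 * 3 ^ e)) = 1 / 2 := by field_simp
  have a4 : ρ = wh F e + ∑ S, (if S.card ≤ e then fh h S ^ 2 else 0) := by
    rw [hp, wh, ← Finset.sum_add_distrib]
    refine Finset.sum_congr rfl fun S _ => ?_
    split_ifs with a
    · ring
    · rw [hc S fun b => a ?_, add_zero]
      have : J.card ≤ 972 := by exact_mod_cast c1'
      exact (card_le_card b).trans (by omega)
  have a5 := H.B1 (d := e) (by omega)
  have a6 : (972 : ℝ) ≤ e := by exact_mod_cast not_lt.1 h2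
  rw [a3] at a2
  have a7 : δ / 8 ≤ wh F e := by linarith
  nlinarith [mul_le_mul_of_nonneg_left a7 e0]

theorem Hyp.main (H : Hyp F β) {δ : ℝ} (hδ : δ = (1 - av F) * (2 * av F - 1))
    (hn : 1 ≤ Fintype.card ι) (h4 : 1 ≤ 4 ^ Fintype.card ι * δ) :
    δ * Real.log (Fintype.card ι / δ) ≤ 200000 * (Fintype.card ι * β) := by
  set n := Fintype.card ι
  have d0 : 0 < δ := by
    by_contra h
    nlinarith [mul_nonneg (by positivity : (0 : ℝ) ≤ 4 ^ n) (neg_nonneg.2 (not_lt.1 h))]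
  have n0 : (0 : ℝ) < n := by exact_mod_cast hn
  have lg : ∀ (a : ℝ) (m : ℕ) (x : ℝ), 0 < x → 0 < a → x ≤ a ^ m → Real.log x ≤ m * (a - 1) :=
    fun a m x hx ha h => (Real.log_le_log hx h).trans (by
      rw [Real.log_pow]
      exact mul_le_mul_of_nonneg_left (Real.log_le_sub_one_of_pos ha) (Nat.cast_nonneg m))
  have b0 := H.B0
  have l1 := H.L1 (Nat.pow_log_le_self 729 (by omega : n ≠ 0))
  have l2 := lg 729 (Nat.log 729 n + 1) n n0 (by norm_num) (by
    exact_mod_cast (Nat.lt_pow_succ_log_self (by norm_num) n).le)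
  have l3 : δ * Real.log (1 / δ) ≤ 170000 * (n * β) := by
    by_cases h : 16 * δ ≤ 1
    · obtain ⟨e, e1, e2⟩ := exists_nat_pow_near (x := 1 / (16 * δ)) (y := (81 : ℝ))
        (by rw [le_div_iff₀ (by positivity)]; linarith) (by norm_num)
      rw [le_div_iff₀ (by positivity)] at e1
      have e3 : e ≤ n := by
        by_contra hc
        have a1 : (4 : ℝ) ^ n ≤ 81 ^ n := pow_le_pow_left₀ (by norm_num) (by norm_num) n
        have a2 : (81 : ℝ) ^ n ≤ 81 ^ e := pow_le_pow_right₀ (by norm_num) (by omega)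
        nlinarith [mul_le_mul_of_nonneg_right (a1.trans a2) d0.le]
      have l4 := H.L2 (e := e) (by rw [← hδ]; linarith) (by omega)
      have l5 := lg 81 (e + 2) (1 / δ) (by positivity) (by norm_num) (by
        rw [div_lt_iff₀ (by positivity)] at e2
        rw [div_le_iff₀ d0, pow_succ _ (e + 1)]
        nlinarith [mul_pos (by positivity : (0 : ℝ) < 81 ^ (e + 1)) d0])
      rw [← hδ] at l4 b0
      push_cast at l5
      nlinarith [mul_le_mul_of_nonneg_left l5 d0.le]
    · have l5 := lg 16 1 (1 / δ) (by positivity) (by norm_num) (by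
        rw [div_le_iff₀ d0]; linarith)
      rw [← hδ] at b0
      push_cast at l5
      nlinarith [mul_le_mul_of_nonneg_left l5 d0.le]
  rw [← hδ] at l1 b0
  push_cast at l2
  rw [div_eq_mul_one_div, Real.log_mul n0.ne' (by positivity)]
  nlinarith [mul_le_mul_of_nonneg_left l2 d0.le]

end Pool.Agent.MP_163ab5_co.K

end

section

/- Up-sets of any size with small biases (tribes). -/

set_option autoImplicit false

open Finset

namespace Pool.Agent.MP_163ab5_co.K

variable {ι : Type} [DecidableEq ι]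

/-- An up-set among the subsets of `U`. -/
def Up (U : Finset ι) (V : Finset (Finset ι)) : Prop :=
  (∀ S ∈ V, S ⊆ U) ∧ ∀ S ∈ V, ∀ T, S ⊆ T → T ⊆ U → T ∈ V

/-- Members with `i` minus members without `i`. -/
def bs (V : Finset (Finset ι)) (i : ι) : ℝ := ∑ S ∈ V, if i ∈ S then 1 else -1

theorem bs_eq (V : Finset (Finset ι)) (i : ι) :
    bs V i = 2 * ((V.filter fun X => i ∈ X).card : ℝ) - V.card := by
  rw [bs, Finset.sum_congr rfl fun S _ => show _ = 2 * (if i ∈ S then (1 : ℝ) else 0) - 1 by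
    split_ifs <;> norm_num, Finset.sum_sub_distrib, ← Finset.mul_sum, Finset.sum_boole]
  simp

theorem bs_le (V : Finset (Finset ι)) (i : ι) : bs V i ≤ V.card := by
  have : ((V.filter fun X => i ∈ X).card : ℝ) ≤ V.card := by exact_mod_cast card_filter_le _ _
  rw [bs_eq]
  linarith

theorem interp {U : Finset ι} {V₀ V₁ : Finset (Finset ι)} (h0 : Up U V₀) (h1 : Up U V₁)
    (h : V₀ ⊆ V₁) {M : ℕ} (a : V₀.card ≤ M) (b : M ≤ V₁.card) :
    ∃ V, Up U V ∧ V₀ ⊆ V ∧ V ⊆ V₁ ∧ V.card = M := by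
  induction M, a using Nat.le_induction with
  | base => exact ⟨V₀, h0, subset_rfl, h, rfl⟩
  | succ M _ ih =>
    obtain ⟨V, u, s0, s1, c⟩ := ih (by omega)
    obtain ⟨S, hS, hm⟩ := Finset.exists_max_image (V₁ \ V) card
      (sdiff_nonempty.2 fun hh => by have := card_le_card hh; omega)
    obtain ⟨m1, m2⟩ := mem_sdiff.1 hS
    refine ⟨insert S V, ⟨fun T hT => h1.1 T (insert_subset m1 s1 hT), fun T hT T' e1 e2 => ?_⟩,
      s0.trans (subset_insert _ _), insert_subset m1 s1, by rw [card_insert_of_notMem m2, c]⟩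
    rcases mem_insert.1 hT with rfl | hT
    · by_contra hc
      rw [mem_insert, not_or] at hc
      exact hc.1 (eq_of_subset_of_card_le e1
        (hm T' (mem_sdiff.2 ⟨h1.2 T m1 T' e1 e2, hc.2⟩))).symm
    · exact mem_insert_of_mem (u.2 T hT T' e1 e2)

theorem bs_piv (V : Finset (Finset ι)) (i : ι) :
    bs V i ≤ (V.filter fun S => i ∈ S ∧ S.erase i ∉ V).card := by
  have h1 := Finset.card_filter_add_card_filter_not (s := V) fun S => i ∈ S
  have h2 := Finset.card_filter_add_card_filter_not (s := V.filter fun S => i ∈ S)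
    fun S => S.erase i ∉ V
  have h3 : ((V.filter fun S => i ∈ S).filter fun S => ¬ S.erase i ∉ V).card ≤
      (V.filter fun S => ¬ i ∈ S).card := by
    refine Finset.card_le_card_of_injOn (fun S => S.erase i) (fun S hS => ?_) fun S hS T hT e => ?_
    · simp only [coe_filter, mem_filter, not_not, Set.mem_ofPred_eq] at hS ⊢
      exact ⟨hS.2, notMem_erase _ _⟩
    · simp only [coe_filter, mem_filter, Set.mem_ofPred_eq] at hS hT
      rw [← insert_erase hS.1.2, ← insert_erase hT.1.2]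
      exact congrArg _ e
  rw [filter_filter] at h2
  have h4 : 2 * (V.filter fun S => i ∈ S).card ≤
      V.card + (V.filter fun S => i ∈ S ∧ S.erase i ∉ V).card := by omega
  have h5 : (2 * (V.filter fun S => i ∈ S).card : ℝ) ≤
      V.card + (V.filter fun S => i ∈ S ∧ S.erase i ∉ V).card := by exact_mod_cast h4
  rw [bs_eq]
  linarith

theorem sum_cpl (U : Finset ι) (g : Finset ι → ℝ) :
    ∑ S ∈ U.powerset, g (U \ S) = ∑ S ∈ U.powerset, g S :=
  Finset.sum_nbij' (fun S => U \ S) (fun S => U \ S) (fun _ _ => mem_powerset.2 sdiff_subset)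
    (fun _ _ => mem_powerset.2 sdiff_subset)
    (fun _ h => Finset.sdiff_sdiff_eq_self (mem_powerset.1 h))
    (fun _ h => Finset.sdiff_sdiff_eq_self (mem_powerset.1 h)) fun _ _ => rfl

theorem bs_pow {U : Finset ι} {i : ι} (hi : i ∈ U) : bs U.powerset i = 0 := by
  have h := sum_cpl U fun S => if i ∈ S then (1 : ℝ) else -1
  rw [Finset.sum_congr rfl fun S _ => show _ = -(if i ∈ S then (1 : ℝ) else -1) by
    by_cases a : i ∈ S <;> simp [a, hi], Finset.sum_neg_distrib] at h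
  rw [bs]
  linarith

theorem dual {U : Finset ι} {V : Finset (Finset ι)} (h : Up U V) :
    ∃ W, Up U W ∧ W.card + V.card = 2 ^ U.card ∧ ∀ i ∈ U, bs W i = bs V i := by
  have s : ∀ g : Finset ι → ℝ, ∑ S ∈ U.powerset.filter (fun S => U \ S ∉ V), g S +
      ∑ S ∈ V, g (U \ S) = ∑ S ∈ U.powerset, g S := fun g => by
    have e : V = U.powerset.filter (· ∈ V) := by
      ext S
      simpa using h.1 S
    rw [← Finset.sum_filter_add_sum_filter_not U.powerset (fun S => U \ S ∉ V) g]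
    congr 1
    conv_lhs => rw [e]
    rw [Finset.sum_filter, Finset.sum_filter, ← sum_cpl]
    refine Finset.sum_congr rfl fun S hS => ?_
    simp only [Finset.sdiff_sdiff_eq_self (mem_powerset.1 hS), not_not]
  refine ⟨U.powerset.filter fun S => U \ S ∉ V, ⟨fun S hS => mem_powerset.1 (mem_filter.1 hS).1,
    fun S hS T a b => mem_filter.2 ⟨mem_powerset.2 b, fun c => (mem_filter.1 hS).2
      (h.2 _ c _ (sdiff_subset_sdiff subset_rfl a) sdiff_subset)⟩⟩, ?_, fun i hi => ?_⟩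
  · have := s fun _ => 1
    simp only [sum_const, nsmul_eq_mul, mul_one, card_powerset] at this
    exact_mod_cast this
  · have h1 := s fun S => if i ∈ S then 1 else -1
    have h2 := bs_pow hi
    rw [Finset.sum_congr rfl fun S (_ : S ∈ V) => show _ = -(if i ∈ S then (1 : ℝ) else -1) by
      by_cases a : i ∈ S <;> simp [a, hi], Finset.sum_neg_distrib] at h1
    unfold bs at *
    linarith

theorem blocks (U : Finset ι) (w t : ℕ) (h : t * w ≤ U.card) : ∃ B : ℕ → Finset ι,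
    (∀ j < t, B j ⊆ U ∧ (B j).card = w) ∧ ∀ j < t, ∀ l < j, Disjoint (B l) (B j) := by
  induction t with
  | zero => exact ⟨fun _ => ∅, by simp, by simp⟩
  | succ t ih =>
    obtain ⟨B, b1, b2⟩ := ih (by nlinarith)
    have c1 : ((range t).biUnion B).card ≤ t * w := by
      simpa using card_biUnion_le_card_mul (range t) B w fun j hj => (b1 j (mem_range.1 hj)).2.le
    obtain ⟨C, c2, c3⟩ := exists_subset_card_eq (s := U \ (range t).biUnion B) (n := w)
      (by have := le_card_sdiff ((range t).biUnion B) U; rw [Nat.succ_mul] at h; omega)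
    refine ⟨fun j => if j = t then C else B j, fun j hj => ?_, fun j hj l hl => ?_⟩
    · dsimp only
      split_ifs with e
      · exact ⟨c2.trans sdiff_subset, c3⟩
      · exact b1 j (by omega)
    · simp only [if_neg (show l ≠ t by omega)]
      split_ifs with e
      · exact disjoint_left.2 fun a ha hc => (mem_sdiff.1 (c2 hc)).2
          (mem_biUnion.2 ⟨l, mem_range.2 (by omega), ha⟩)
      · exact b2 j (by omega) l hl

theorem sup_card {U B : Finset ι} (h : B ⊆ U) :
    (U.powerset.filter fun S => B ⊆ S).card * 2 ^ B.card = 2 ^ U.card := by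
  rw [show U.powerset.filter (fun S => B ⊆ S) = Icc B U by ext; simp [and_comm],
    card_Icc_finset h, ← pow_add, Nat.sub_add_cancel (card_le_card h)]

theorem tribes (U : Finset ι) (w t₀ M : ℕ) (h : t₀ * w ≤ U.card)
    (hM : (M : ℝ) * (2 ^ w + t₀) ≤ 2 ^ U.card * t₀) :
    ∃ V, Up U V ∧ V.card = M ∧ ∀ i, bs V i * 2 ^ w ≤ 2 * 2 ^ U.card := by
  obtain ⟨B, b1, b2⟩ := blocks U w t₀ h
  let T : ℕ → Finset (Finset ι) := fun t => U.powerset.filter fun S => ∃ j < t, B j ⊆ S
  let G : ℕ → Finset (Finset ι) := fun t => U.powerset.filter fun S => ¬ ∃ j < t, B j ⊆ S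
  have up : ∀ t, Up U (T t) := fun t => ⟨fun S hS => mem_powerset.1 (mem_filter.1 hS).1,
    fun S hS S' a b => mem_filter.2 ⟨mem_powerset.2 b,
      (mem_filter.1 hS).2.imp fun j hj => ⟨hj.1, hj.2.trans a⟩⟩⟩
  have tg : ∀ t, (T t).card + (G t).card = 2 ^ U.card := fun t => by
    rw [Finset.card_filter_add_card_filter_not, card_powerset]
  have p2 : (0 : ℝ) < 2 ^ w := by positivity
  have rc : ∀ t, t ≤ t₀ → ((G t).card : ℝ) * (2 ^ w + t) ≤ 2 ^ U.card * 2 ^ w := by
    intro t ht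
    induction t with
    | zero => simp [G]
    | succ t ih =>
      have c1 := Finset.card_filter_add_card_filter_not (s := G t) fun S => B t ⊆ S
      have c2 : (G t).filter (fun S => ¬ B t ⊆ S) = G (t + 1) := by
        ext S
        simp only [G, mem_filter, Nat.lt_succ_iff_lt_or_eq, or_and_right, exists_or, not_or,
          exists_eq_left, and_assoc]
      have c3 : (G t).card ≤ 2 ^ w * ((G t).filter fun S => B t ⊆ S).card := by
        refine card_le_mul_card_image_of_maps_to (f := fun S => S ∪ B t) (fun S hS => ?_) _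
          fun S' _ => ?_
        · obtain ⟨a, b⟩ := mem_filter.1 hS
          refine mem_filter.2 ⟨mem_filter.2 ⟨mem_powerset.2 (union_subset (mem_powerset.1 a)
            (b1 t ht).1), fun ⟨j, hj, e⟩ => b ⟨j, hj, fun x hx => ?_⟩⟩, subset_union_right⟩
          exact (mem_union.1 (e hx)).resolve_right (disjoint_left.1 (b2 t ht j hj) hx)
        · rw [← (b1 t ht).2, ← card_powerset]
          refine Finset.card_le_card_of_injOn (fun S => S ∩ B t)
            (fun S _ => mem_coe.2 (mem_powerset.2 inter_subset_right)) fun S hS S₂ hS₂ e => ?_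
          have e1 := (mem_filter.1 (mem_coe.1 hS)).2.trans (mem_filter.1 (mem_coe.1 hS₂)).2.symm
          ext x
          have e2 := Finset.ext_iff.1 e1 x
          have e3 := Finset.ext_iff.1 e x
          simp only [mem_union, mem_inter] at e2 e3
          tauto
      rw [c2] at c1
      have c4 : ((G t).card : ℝ) ≤ 2 ^ w * ((G t).card - (G (t + 1)).card) := by
        have a1 : (((G t).filter fun S => B t ⊆ S).card : ℝ) + (G (t + 1)).card = (G t).card := by
          exact_mod_cast c1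
        have a2 : ((G t).card : ℝ) ≤ 2 ^ w * ((G t).filter fun S => B t ⊆ S).card := by
          exact_mod_cast c3
        rw [← a1] at a2 ⊢
        linarith
      refine le_trans ?_ (ih (by omega))
      refine le_of_mul_le_mul_right ?_ p2
      have g0 : (0 : ℝ) ≤ (G t).card := Nat.cast_nonneg _
      have t0 : (0 : ℝ) ≤ t := Nat.cast_nonneg _
      push_cast
      nlinarith [mul_le_mul_of_nonneg_right c4 (by positivity : (0 : ℝ) ≤ 2 ^ w + (t + 1)),
        mul_nonneg g0 t0]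
  have top : M ≤ (T t₀).card := by
    have a1 := rc t₀ le_rfl
    have a2 : ((T t₀).card : ℝ) + (G t₀).card = 2 ^ U.card := by exact_mod_cast tg t₀
    have a3 : (M : ℝ) ≤ (T t₀).card :=
      le_of_mul_le_mul_right (by nlinarith) (by positivity : (0 : ℝ) < 2 ^ w + t₀)
    exact_mod_cast a3
  obtain ⟨t, ht, hmin⟩ : ∃ t, M ≤ (T t).card ∧ ∀ s < t, ¬ M ≤ (T s).card :=
    ⟨_, Nat.find_spec (p := fun t => M ≤ (T t).card) ⟨t₀, top⟩,
      fun s hs => Nat.find_min (p := fun t => M ≤ (T t).card) _ hs⟩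
  have tl : t ≤ t₀ := not_lt.1 fun c => hmin t₀ c top
  rcases t with _ | t
  · refine ⟨∅, ⟨by simp, by simp⟩, by simpa [T, eq_comm] using ht, fun i => ?_⟩
    simp [bs]
  obtain ⟨V, u, s0, s1, c⟩ := interp (up t) (up (t + 1)) (fun S hS => mem_filter.2
    ⟨(mem_filter.1 hS).1, (mem_filter.1 hS).2.imp fun j hj => ⟨by omega, hj.2⟩⟩)
    (not_le.1 (hmin t (by omega))).le ht
  refine ⟨V, u, c, fun i => ?_⟩
  obtain ⟨l, hl, hl'⟩ : ∃ l < t + 1, ∀ j < t, i ∈ B j → j = l := by
    by_cases a : ∃ l < t, i ∈ B l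
    · obtain ⟨l, a1, a2⟩ := a
      refine ⟨l, by omega, fun j hj e => ?_⟩
      rcases lt_trichotomy j l with b | b | b
      · exact absurd a2 (disjoint_left.1 (b2 l (by omega) j b) e)
      · exact b
      · exact absurd e (disjoint_left.1 (b2 j (by omega) l b) a2)
    · exact ⟨t, by omega, fun j hj e => absurd ⟨j, hj, e⟩ a⟩
  have k1 : (V.filter fun S => i ∈ S ∧ S.erase i ∉ V) ⊆ (U.powerset.filter fun S => B t ⊆ S) ∪
      U.powerset.filter fun S => B l ⊆ S := fun S hS => by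
    obtain ⟨a1, -, a3⟩ := mem_filter.1 hS
    obtain ⟨a4, j, hj, a5⟩ := mem_filter.1 (s1 a1)
    rcases Nat.lt_succ_iff_lt_or_eq.1 hj with b | rfl
    · refine mem_union_right _ (mem_filter.2 ⟨a4, hl' j b ?_ ▸ a5⟩)
      by_contra hc
      exact a3 (s0 (mem_filter.2 ⟨mem_powerset.2 ((erase_subset _ _).trans (mem_powerset.1 a4)),
        j, b, subset_erase.2 ⟨a5, hc⟩⟩))
    · exact mem_union_left _ (mem_filter.2 ⟨a4, a5⟩)
  have k2 := sup_card (b1 t (by omega)).1
  have k3 := sup_card (b1 l (by omega)).1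
  rw [(b1 _ (by omega)).2] at k2 k3
  have k4 : (V.filter fun S => i ∈ S ∧ S.erase i ∉ V).card * 2 ^ w ≤ 2 * 2 ^ U.card := by
    nlinarith [Nat.mul_le_mul_right (2 ^ w) ((card_le_card k1).trans (card_union_le _ _))]
  exact (mul_le_mul_of_nonneg_right (bs_piv V i) p2.le).trans (by exact_mod_cast k4)

theorem small (U : Finset ι) (M : ℕ) (h1 : 1 ≤ M) (h2 : 2 * M ≤ 2 ^ U.card) :
    ∃ V, Up U V ∧ V.card = M ∧ ∃ w : ℕ, (2 : ℝ) ^ w * M ≤ U.card * 2 ^ U.card ∧
      ∀ i, U.card * bs V i ≤ 16 * M * (w + 1) := by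
  set k := U.card with hk
  have M1 : (1 : ℝ) ≤ M := by exact_mod_cast h1
  have M2 : 2 * (M : ℝ) ≤ 2 ^ k := by exact_mod_cast h2
  by_cases hs : k ≤ 16
  · obtain ⟨V, u, -, -, c⟩ := interp (U := U) (V₀ := ∅) (V₁ := U.powerset) ⟨by simp, by simp⟩
      ⟨by simp, fun _ _ _ _ b => mem_powerset.2 b⟩ (empty_subset _) (M := M) (by simp)
      (by rw [card_powerset, ← hk]; omega)
    have k1 : (1 : ℝ) ≤ k := by
      exact_mod_cast Nat.pos_of_ne_zero fun e => by rw [e] at h2; omega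
    have k2 : (k : ℝ) ≤ 16 := by exact_mod_cast hs
    refine ⟨V, u, c, 0, by nlinarith, fun i => ?_⟩
    have := bs_le V i
    rw [c] at this
    nlinarith
  let Q : ℕ → Prop := fun w => 1 ≤ w ∧ (M : ℝ) * (2 ^ w + (k / w : ℕ)) ≤ 2 ^ k * (k / w : ℕ)
  have k2 : (16 : ℝ) ≤ k := by exact_mod_cast (not_le.1 hs).le
  have q1 : Q 1 := ⟨le_rfl, by simp only [Nat.div_one]; nlinarith⟩
  classical
  have q2 : Q (Nat.findGreatest Q k) := Nat.findGreatest_spec (by omega : 1 ≤ k) q1
  have q3 := fun m => Nat.findGreatest_is_greatest (P := Q) (n := k) (k := m)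
  have q4 := Nat.findGreatest_le (P := Q) k
  set w := Nat.findGreatest Q k
  obtain ⟨V, u, c, hb⟩ := tribes U w (k / w) M (Nat.div_mul_le_self k w) q2.2
  have d1 : ((k / w : ℕ) : ℝ) ≤ k := by exact_mod_cast Nat.div_le_self k w
  have d0 : (0 : ℝ) ≤ (k / w : ℕ) := Nat.cast_nonneg _
  have p2 : (0 : ℝ) < 2 ^ w := by positivity
  have pk : (0 : ℝ) < 2 ^ k := by positivity
  refine ⟨V, u, c, w, by nlinarith [q2.2], fun i => ?_⟩
  rcases q4.eq_or_lt with e | e
  · have := q2.2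
    rw [e, Nat.div_self (by omega)] at this
    push_cast at this
    nlinarith
  have q5 := not_and.1 (q3 (w + 1) (by omega) e) (by omega)
  have q6 : k ≤ 2 * (w + 1) * (k / (w + 1)) := by
    have a1 := Nat.div_add_mod k (w + 1)
    have a2 := Nat.mod_lt k (by omega : 0 < w + 1)
    have a3 : 1 ≤ k / (w + 1) := Nat.div_pos e (by omega)
    nlinarith
  have q7 : (k : ℝ) ≤ 2 * (w + 1) * (k / (w + 1) : ℕ) := by exact_mod_cast q6
  have d2 : (0 : ℝ) ≤ (k / (w + 1) : ℕ) := Nat.cast_nonneg _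
  have q8 : 2 ^ k * ((k / (w + 1) : ℕ) : ℝ) ≤ 4 * M * 2 ^ w := by
    rw [pow_succ] at q5
    nlinarith [mul_le_mul_of_nonneg_right M2 d2]
  refine le_of_mul_le_mul_right ?_ p2
  have w0 : (0 : ℝ) ≤ w := Nat.cast_nonneg _
  nlinarith [mul_le_mul_of_nonneg_left (hb i) (by linarith : (0 : ℝ) ≤ k),
    mul_le_mul_of_nonneg_right q7 pk.le,
    mul_le_mul_of_nonneg_left q8 (by linarith : (0 : ℝ) ≤ w + 1)]

end Pool.Agent.MP_163ab5_co.K

end

section

/- From families of sets to functions on the cube, and the two bounds. -/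

set_option autoImplicit false

open Finset Pool.Agent.MP_9808b6_an

namespace Pool.Agent.MP_163ab5_co.K

variable {ι : Type} [Fintype ι] [DecidableEq ι]

theorem av_ind (A : Finset (Finset ι)) (g : Finset ι → ℝ) :
    av (fun x => (if x ∈ A then 1 else 0) * g x) = (∑ x ∈ A, g x) / 2 ^ Fintype.card ι := by
  simp [av, Fintype.card_finset]

theorem av_card (A : Finset (Finset ι)) :
    av (fun x => if x ∈ A then (1 : ℝ) else 0) = A.card / 2 ^ Fintype.card ι := by
  simpa using av_ind A fun _ => 1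

theorem fh_one (A : Finset (Finset ι)) (i : ι) :
    fh (fun x => if x ∈ A then 1 else 0) {i} = -bs A i / 2 ^ Fintype.card ι := by
  rw [fh, av_ind, bs, ← Finset.sum_neg_distrib]
  congr 1
  exact Finset.sum_congr rfl fun x _ => by by_cases a : i ∈ x <;> simp [chi, sg, a]

theorem neg_eq (A : Finset (Finset ι)) (i : ι) :
    inf (fun x => if x ∈ A then 1 else 0) i + 2 * fh (fun x => if x ∈ A then 1 else 0) {i} =
      4 * av fun y => if i ∈ y ∧ y ∉ A ∧ symmDiff y {i} ∈ A then 1 else 0 := by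
  set F : Finset ι → ℝ := fun x => if x ∈ A then 1 else 0 with hF
  let Φ : Finset ι → ℝ := fun x => df F i x ^ 2 + 2 * (F x * chi {i} x) -
    4 * if i ∈ x ∧ x ∉ A ∧ symmDiff x {i} ∈ A then 1 else 0
  have h1 : av (fun x => Φ x + Φ (symmDiff x {i})) = av fun _ : Finset ι => 0 := by
    congr 1
    ext x
    simp only [Φ, df, hF, flip_flip, chi_flip]
    by_cases a : i ∈ x <;> by_cases b : x ∈ A <;> by_cases c : symmDiff x {i} ∈ A <;>
      simp [a, b, c, chi, sg, mem_symmDiff] <;> norm_num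
  rw [av_add, av_flip, av_const] at h1
  have h2 : av Φ = inf F i + 2 * fh F {i} -
      4 * av fun y => if i ∈ y ∧ y ∉ A ∧ symmDiff y {i} ∈ A then 1 else 0 := by
    simp only [Φ]
    rw [av_sub, av_add, av_mul, av_mul]
    rfl
  linarith

theorem hyp_of {A : Finset (Finset ι)} (hc : ∀ X ∈ A, ∀ Y ∈ A, X ∪ Y ∈ A) {β : ℝ} (b0 : 0 ≤ β)
    (hh : 2 ^ Fintype.card ι ≤ 2 * (A.card : ℝ)) (hb : ∀ i, 2 * bs A i ≤ β * 2 ^ Fintype.card ι) :
    Hyp (fun x => if x ∈ A then 1 else 0) β := by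
  have p : (0 : ℝ) < 2 ^ Fintype.card ι := by positivity
  refine ⟨fun x => by split_ifs <;> simp, fun i => ?_, ?_, fun i => ?_, b0, ?_⟩
  · rw [neg_eq]
    exact mul_nonneg (by norm_num) (av_nonneg fun x => by split_ifs <;> norm_num)
  · simp only [neg_eq]
    have e := av_sub (fun _ : Finset ι => (1 : ℝ)) fun x => if x ∈ A then 1 else 0
    rw [av_const] at e
    rw [← Finset.mul_sum, ← av_sum, ← e]
    refine mul_le_mul_of_nonneg_left (av_mono fun y => ?_) (by norm_num)
    by_cases a : y ∈ A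
    · simp [a]
    · rw [Finset.sum_boole, if_neg a, sub_zero, Nat.cast_le_one, Finset.card_le_one]
      intro i hi j hj
      by_contra e
      obtain ⟨-, i1, -, i2⟩ := mem_filter.1 hi
      obtain ⟨-, j1, -, j2⟩ := mem_filter.1 hj
      refine a ?_
      convert hc _ i2 _ j2 using 1
      ext l
      simp only [mem_union, mem_symmDiff, mem_singleton]
      by_cases b : l = i
      · simp [b, i1, e]
      · by_cases c : l = j <;> simp [b, c, j1, Ne.symm e]
  · rw [fh_one, ← mul_div_assoc, div_le_iff₀ p]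
    linarith [hb i]
  · rw [av_card, le_div_iff₀ p]
    linarith

theorem lower {A : Finset (Finset ι)} (hc : ∀ X ∈ A, ∀ Y ∈ A, X ∪ Y ∈ A)
    (h1 : 2 ^ Fintype.card ι < 2 * A.card) (h2 : A.card < 2 ^ Fintype.card ι) {δ : ℝ}
    (hδ : δ = (1 - A.card / 2 ^ Fintype.card ι) * (2 * (A.card / 2 ^ Fintype.card ι) - 1)) :
    ∃ i, δ * Real.log (Fintype.card ι / δ) / Fintype.card ι * A.card ≤ 400000 * bs A i := by
  set n := Fintype.card ι with hn
  have n1 : 1 ≤ n := Nat.pos_of_ne_zero fun e => by rw [e] at h1 h2; omega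
  have n0 : (0 : ℝ) < n := by exact_mod_cast n1
  have p : (0 : ℝ) < 2 ^ n := by positivity
  have a1 : (2 : ℝ) ^ n + 1 ≤ 2 * A.card := by exact_mod_cast h1
  have a2 : (A.card : ℝ) + 1 ≤ 2 ^ n := by exact_mod_cast h2
  have h4 : 1 ≤ 4 ^ n * δ := by
    have : 4 ^ n * δ = (2 ^ n - A.card) * (2 * A.card - 2 ^ n) := by
      rw [hδ, show (4 : ℝ) ^ n = 2 ^ n * 2 ^ n by rw [← mul_pow]; norm_num]
      field_simp
    nlinarith
  have d0 : 0 < δ := by
    by_contra h
    nlinarith [mul_nonneg (by positivity : (0 : ℝ) ≤ 4 ^ n) (neg_nonneg.2 (not_lt.1 h))]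
  obtain ⟨i, -, hi⟩ := Finset.exists_max_image univ (bs A) (card_pos.1 (by rwa [card_univ]))
  have hδ' := hδ
  rw [← av_card] at hδ'
  have b0 : 0 ≤ bs A i := by
    by_contra h
    have := (hyp_of hc le_rfl (by linarith) fun j => by linarith [hi j (mem_univ j)]).B0
    linarith
  have m := (hyp_of hc (β := 2 * bs A i / 2 ^ n) (by positivity) (by linarith) fun j => by
    rw [div_mul_cancel₀ _ p.ne']
    linarith [hi j (mem_univ j)]).main hδ' n1 h4
  refine ⟨i, ?_⟩
  have m2 : δ * Real.log (n / δ) / n ≤ 200000 * (2 * bs A i / 2 ^ n) := by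
    rw [div_le_iff₀ n0]
    linarith
  calc _ ≤ 200000 * (2 * bs A i / 2 ^ n) * A.card :=
        mul_le_mul_of_nonneg_right m2 (Nat.cast_nonneg _)
    _ ≤ 200000 * (2 * bs A i / 2 ^ n) * 2 ^ n :=
        mul_le_mul_of_nonneg_left (by linarith) (by positivity)
    _ = _ := by field_simp; ring

theorem upper {N : ℕ} (h1 : 2 ^ Fintype.card ι < 2 * N) (h2 : N < 2 ^ Fintype.card ι) {δ : ℝ}
    (hδ : δ = (1 - N / 2 ^ Fintype.card ι) * (2 * (N / 2 ^ Fintype.card ι) - 1)) :
    ∃ A : Finset (Finset ι), (∀ X ∈ A, ∀ Y ∈ A, X ∪ Y ∈ A) ∧ A.card = N ∧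
      ∀ i, bs A i ≤ 256 * (δ * Real.log (Fintype.card ι / δ) / Fintype.card ι * N) := by
  have n1 : 1 ≤ Fintype.card ι := Nat.pos_of_ne_zero fun e => by rw [e] at h1 h2; omega
  obtain ⟨y⟩ := Fintype.card_pos_iff.1 n1
  set U := univ.erase y with hU
  have hk : Fintype.card ι = U.card + 1 := by rw [card_erase_add_one (mem_univ y), card_univ]
  have yU : y ∉ U := notMem_erase _ _
  rw [hk] at h1 h2 hδ ⊢
  set k := U.card with hk'
  rw [pow_succ] at h1 h2
  obtain ⟨M', rfl⟩ := Nat.exists_eq_add_of_le (by omega : 2 ^ k ≤ N)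
  have p : (0 : ℝ) < 2 ^ k := by positivity
  have e : δ * 2 ^ k * (2 * 2 ^ k) = M' * (2 ^ k - M') := by
    rw [hδ]
    push_cast
    field_simp
    ring
  obtain ⟨V, u, c, M, w, m1, m2, m3, hw, hb⟩ : ∃ V, Up U V ∧ V.card = M' ∧ ∃ M w : ℕ, 1 ≤ M ∧
      2 * M ≤ 2 ^ k ∧ (M * (2 ^ k - M) : ℝ) = M' * (2 ^ k - M') ∧ (2 : ℝ) ^ w * M ≤ k * 2 ^ k ∧
      ∀ i ∈ U, k * bs V i ≤ 16 * M * (w + 1) := by
    by_cases h : 2 * M' ≤ 2 ^ k
    · obtain ⟨V, u, c, w, a, b⟩ := small U M' (by omega) h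
      exact ⟨V, u, c, M', w, by omega, h, rfl, a, fun i _ => b i⟩
    · obtain ⟨V, u, c, w, a, b⟩ := small U (2 ^ k - M') (by omega) (by rw [← hk']; omega)
      obtain ⟨W, u', c', b'⟩ := dual u
      refine ⟨W, u', by rw [← hk'] at c'; omega, 2 ^ k - M', w, by omega, by omega, ?_, a,
        fun i hi => b' i hi ▸ b i⟩
      rw [Nat.cast_sub (by omega)]
      push_cast
      ring
  have s : ∀ g : Finset ι → ℝ, ∑ X ∈ univ.filter (fun X => y ∈ X → X.erase y ∈ V), g X =
      ∑ S ∈ U.powerset, g S + ∑ S ∈ V, g (insert y S) := fun g => by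
    have e : V = U.powerset.filter (· ∈ V) := by
      ext S
      simpa using u.1 S
    rw [Finset.sum_filter, ← Finset.powerset_univ, ← insert_erase (mem_univ y),
      Finset.sum_powerset_insert yU]
    conv_rhs => rw [e, Finset.sum_filter]
    congr 1 <;> refine Finset.sum_congr rfl fun S hS => ?_
    · rw [if_pos fun a => absurd (mem_powerset.1 hS a) yU]
    · simp [erase_insert fun a => yU (mem_powerset.1 hS a)]
  have M1 : (1 : ℝ) ≤ M := by exact_mod_cast m1
  have M2 : 2 * (M : ℝ) ≤ 2 ^ k := by exact_mod_cast m2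
  have k1 : (1 : ℝ) ≤ k := by
    exact_mod_cast Nat.pos_of_ne_zero fun e => by rw [e] at m2; omega
  have d1 : (M : ℝ) ≤ 4 * (δ * 2 ^ k) := le_of_mul_le_mul_right (by nlinarith) p
  have d2 : 2 * (δ * 2 ^ k) ≤ M := le_of_mul_le_mul_right (by nlinarith) p
  have d0 : 0 < δ := (mul_pos_iff_of_pos_right p).1 (by linarith)
  have l1 : (w + 1 : ℝ) ≤ 2 * Real.log (((k + 1 : ℕ) : ℝ) / δ) := by
    have a1 : (2 : ℝ) ^ (w + 1) ≤ ((k + 1 : ℕ) : ℝ) / δ := by
      rw [le_div_iff₀ d0, pow_succ]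
      push_cast
      refine le_of_mul_le_mul_right ?_ p
      nlinarith [mul_le_mul_of_nonneg_left d2 (by positivity : (0 : ℝ) ≤ 2 ^ w)]
    have a2 := Real.log_le_log (by positivity) a1
    rw [Real.log_pow] at a2
    have w0 : (0 : ℝ) ≤ w := Nat.cast_nonneg _
    push_cast at a2 ⊢
    nlinarith [Real.log_two_gt_d9]
  have w0 : (0 : ℝ) ≤ w := Nat.cast_nonneg _
  set L := Real.log (((k + 1 : ℕ) : ℝ) / δ)
  have E0 : 0 ≤ δ * L / ((k + 1 : ℕ) : ℝ) := div_nonneg (mul_nonneg d0.le (by linarith))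
    (Nat.cast_nonneg _)
  refine ⟨univ.filter fun X => y ∈ X → X.erase y ∈ V, fun X hX Y hY => ?_, ?_, fun i => ?_⟩
  · simp only [mem_filter, mem_univ, true_and, mem_union] at hX hY ⊢
    rintro (a | a)
    · exact u.2 _ (hX a) _ (erase_subset_erase _ subset_union_left)
        (erase_subset_erase _ (subset_univ _))
    · exact u.2 _ (hY a) _ (erase_subset_erase _ subset_union_right)
        (erase_subset_erase _ (subset_univ _))
  · have := s fun _ => 1
    simp only [sum_const, nsmul_eq_mul, mul_one, card_powerset, c] at this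
    exact_mod_cast this
  · rw [bs, s]
    by_cases a : i = y
    · subst a
      rw [Finset.sum_congr rfl fun S hS => if_neg fun b => yU (mem_powerset.1 hS b)]
      have : (M' : ℝ) ≤ 2 ^ k := by exact_mod_cast (by omega : M' ≤ 2 ^ k)
      refine le_trans ?_ (by positivity : (0 : ℝ) ≤ _)
      simp [c, ← hk', this]
    · have iU : i ∈ U := mem_erase.2 ⟨a, mem_univ _⟩
      have a1 := bs_pow iU
      have a2 := hb i iU
      simp only [mem_insert, a, false_or]
      unfold bs at a1 a2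
      rw [a1, zero_add]
      refine le_trans ?_ (mul_le_mul_of_nonneg_left (mul_le_mul_of_nonneg_left
        (show (2 : ℝ) ^ k ≤ _ by push_cast; linarith [Nat.cast_nonneg (α := ℝ) M']) E0)
        (by norm_num))
      set b := ∑ S ∈ V, if i ∈ S then (1 : ℝ) else -1
      rw [div_mul_eq_mul_div, ← mul_div_assoc, le_div_iff₀ (by positivity)]
      have a3 : (M : ℝ) * (w + 1) ≤ 4 * (δ * 2 ^ k) * (2 * L) :=
        mul_le_mul d1 l1 (by linarith) (by positivity)
      push_cast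
      rcases le_total b 0 with h | h
      · nlinarith [mul_nonneg (by linarith : (0 : ℝ) ≤ M) (by linarith : (0 : ℝ) ≤ w + 1)]
      · nlinarith

end Pool.Agent.MP_163ab5_co.K

end
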